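import Mathlib
import Pool.Agent.Helper336.CliffHughes

set_option autoImplicit false
set_option linter.unusedSectionVars false

open MeasureTheory ENNReal

namespace Pool.Agent.Results.MP_b7e8ae_al.NoGap

open Pool.Agent.Helper336.CliffHughes

/-- elementary abelian group of rank `k` -/
abbrev KK (k : ℕ) : Type := Fin k → ZMod 2

/-- an enumeration of it -/
noncomputable def io (k : ℕ) : KK k → ℕ := fun s => (Fintype.equivFin (KK k) s : ℕ)

lemma io_inj (k : ℕ) : Function.Injective (io k) := fun _ _ h =>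
  (Fintype.equivFin (KK k)).injective (Fin.ext h)

lemma kk_two (k : ℕ) (h : KK k) : h + h = 0 := by
  funext i
  exact z2 _

/-- the finite 2-group of index `k` -/
def Gk (k : ℕ) : Type := GT (io k)

noncomputable instance (k : ℕ) : Group (Gk k) := inferInstanceAs (Group (GT (io k)))
instance (k : ℕ) : Finite (Gk k) := inferInstanceAs (Finite (GT (io k)))
instance (k : ℕ) : TopologicalSpace (Gk k) := ⊥
instance (k : ℕ) : DiscreteTopology (Gk k) := ⟨rfl⟩

/-- projection of the finite group to the elementary abelian group -/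
noncomputable def prk (k : ℕ) : Gk k →* Multiplicative (KK k) := pr (io k)

lemma prk_surj (k : ℕ) : Function.Surjective (prk k) := pr_surj

lemma prk_pow (k : ℕ) (g : Gk k) (hg : prk k g ≠ 1) : g ^ 4 = 1 :=
  pr_pow (io_inj k) (kk_two k) g hg

/-- a bad element -/
noncomputable def bd (k : ℕ) : Gk k := badT (io k)

lemma bd_pow (k n : ℕ) (hn : n % 8 = 4) : bd k ^ n ≠ 1 := badT_pow (io k) n hn

/-- the profinite group -/
def PG (N : ℕ) : Type := ∀ k : ℕ, Gk (N + 2 + k)

noncomputable instance (N : ℕ) : Group (PG N) := inferInstanceAs (Group (∀ k : ℕ, Gk (N + 2 + k)))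
instance (N : ℕ) : TopologicalSpace (PG N) :=
  inferInstanceAs (TopologicalSpace (∀ k : ℕ, Gk (N + 2 + k)))
instance (N : ℕ) : IsTopologicalGroup (PG N) :=
  inferInstanceAs (IsTopologicalGroup (∀ k : ℕ, Gk (N + 2 + k)))
instance (N : ℕ) : CompactSpace (PG N) := inferInstanceAs (CompactSpace (∀ k : ℕ, Gk (N + 2 + k)))
instance (N : ℕ) : T2Space (PG N) := inferInstanceAs (T2Space (∀ k : ℕ, Gk (N + 2 + k)))
instance (N : ℕ) : TotallyDisconnectedSpace (PG N) :=
  inferInstanceAs (TotallyDisconnectedSpace (∀ k : ℕ, Gk (N + 2 + k)))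
noncomputable instance (N : ℕ) : MeasurableSpace (PG N) := borel _
instance (N : ℕ) : BorelSpace (PG N) := ⟨rfl⟩

/-- Haar measure of the kernel of a homomorphism onto a finite group. -/
lemma haar_ker {G A : Type} [Group G] [TopologicalSpace G] [IsTopologicalGroup G] [CompactSpace G]
    [T2Space G] [MeasurableSpace G] [BorelSpace G] [Group A] [Fintype A] (f : G →* A)
    (hf : Function.Surjective f) (hc : ∀ a, IsOpen (f ⁻¹' {a})) :
    (Fintype.card A : ℝ≥0∞) * (Measure.haar : Measure G) {x | f x = 1}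
      = (Measure.haar : Measure G) Set.univ := by
  have h1 : ∀ a : A, (Measure.haar : Measure G) (f ⁻¹' {a}) = (Measure.haar : Measure G) {x | f x = 1} := by
    intro a
    obtain ⟨g, hg⟩ := hf a
    rw [← measure_preimage_mul (Measure.haar : Measure G) g (f ⁻¹' {a})]
    congr 1
    ext x
    simp [hg]
  have h2 := sum_measure_preimage_singleton (μ := (Measure.haar : Measure G)) (Finset.univ : Finset A)
    (f := f) (fun a _ => (hc a).measurableSet)
  rw [Finset.coe_univ, Set.preimage_univ] at h2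
  rw [← h2, Finset.sum_congr rfl (fun a _ => h1 a), Finset.sum_const, Finset.card_univ, nsmul_eq_mul]

lemma haar_k (N k : ℕ) :
    (Measure.haar : Measure (PG N)) {x | prk (N + 2 + k) (x k) = 1}
      = (Measure.haar : Measure (PG N)) Set.univ * (2⁻¹ : ℝ≥0∞) ^ (N + 2 + k) := by
  have hev : Continuous (fun x : PG N => x k) := continuous_apply k
  let f : PG N →* Multiplicative (KK (N + 2 + k)) := (prk (N + 2 + k)).comp (Pi.evalMonoidHom _ k)
  have hf : Function.Surjective f := by
    intro a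
    obtain ⟨g, hg⟩ := prk_surj (N + 2 + k) a
    classical
    refine ⟨(Pi.mulSingle k g : ∀ k : ℕ, Gk (N + 2 + k)), ?_⟩
    show prk (N + 2 + k) ((Pi.mulSingle k g : ∀ k : ℕ, Gk (N + 2 + k)) k) = a
    rw [Pi.mulSingle_eq_same, hg]
  have h := haar_ker f hf (fun a => by
    have : f ⁻¹' {a} = (fun x : PG N => x k) ⁻¹' (prk (N + 2 + k) ⁻¹' {a}) := rfl
    rw [this]
    exact (isOpen_discrete _).preimage hev)
  have hcard : (Fintype.card (Multiplicative (KK (N + 2 + k))) : ℝ≥0∞) = 2 ^ (N + 2 + k) := by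
    rw [Fintype.card_multiplicative]
    simp [KK, ZMod.card]
  rw [hcard] at h
  rw [← h, mul_comm, ← mul_assoc, ← mul_pow, ENNReal.inv_mul_cancel (by norm_num) (by norm_num),
    one_pow, one_mul]
  rfl

lemma haar_bad (N : ℕ) :
    (Measure.haar : Measure (PG N)) {x | x ^ 4 ≠ 1}
      ≤ (Measure.haar : Measure (PG N)) Set.univ * (2⁻¹ : ℝ≥0∞) ^ (N + 1) := by
  have hsub : {x : PG N | x ^ 4 ≠ 1} ⊆ ⋃ k : ℕ, {x | prk (N + 2 + k) (x k) = 1} := by
    intro x hx
    by_contra hcon
    apply hx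
    funext k
    have hk : prk (N + 2 + k) (x k) ≠ 1 := fun h => hcon (Set.mem_iUnion.2 ⟨k, h⟩)
    exact prk_pow _ _ hk
  refine (measure_mono hsub).trans ((measure_iUnion_le _).trans ?_)
  simp only [haar_k]
  rw [ENNReal.tsum_mul_left]
  gcongr
  have h1 : ∀ k : ℕ, (2⁻¹ : ℝ≥0∞) ^ (N + 2 + k) = (2⁻¹ : ℝ≥0∞) ^ (N + 2) * (2⁻¹ : ℝ≥0∞) ^ k :=
    fun k => pow_add _ _ _
  simp only [h1]
  rw [ENNReal.tsum_mul_left, ENNReal.tsum_geometric, ENNReal.one_sub_inv_two, inv_inv,
    show N + 2 = (N + 1) + 1 from rfl, pow_succ, mul_assoc,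
    ENNReal.inv_mul_cancel (by norm_num) (by norm_num), mul_one]

/-- The Levai-Pyber question has a negative answer for every exponent `n` congruent to `4`
modulo `8`, with sets of solutions of measure arbitrarily close to full. -/
theorem result : ∀ N : ℕ, ∃ (G : Type) (_ : Group G) (_ : TopologicalSpace G)
    (_ : IsTopologicalGroup G) (_ : CompactSpace G) (_ : T2Space G) (_ : TotallyDisconnectedSpace G)
    (_ : MeasurableSpace G) (_ : BorelSpace G),
    ∀ n : ℕ, n % 8 = 4 →
      0 < (Measure.haar : Measure G) {x : G | x ^ n = 1} ∧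
      (Measure.haar : Measure G) {x : G | x ^ n ≠ 1}
        ≤ (Measure.haar : Measure G) Set.univ * (2⁻¹ : ℝ≥0∞) ^ (N + 1) ∧
      ∀ H : Subgroup G, IsOpen (H : Set G) → ∀ t : G, ∃ h ∈ H, (t * h) ^ n ≠ 1 := by
  intro N
  refine ⟨PG N, inferInstance, inferInstance, inferInstance, inferInstance, inferInstance,
    inferInstance, inferInstance, inferInstance, ?_⟩
  intro n hn
  have hsub : {x : PG N | x ^ n ≠ 1} ⊆ {x : PG N | x ^ 4 ≠ 1} := by
    intro x hx h4
    apply hx
    have h : n = 4 * (n / 4) := by omega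
    have h4' : x ^ 4 = 1 := h4
    rw [h, pow_mul, h4', one_pow]
  have hbad : (Measure.haar : Measure (PG N)) {x : PG N | x ^ n ≠ 1}
        ≤ (Measure.haar : Measure (PG N)) Set.univ * (2⁻¹ : ℝ≥0∞) ^ (N + 1) :=
    (measure_mono hsub).trans (haar_bad N)
  refine ⟨?_, hbad, ?_⟩
  · rw [pos_iff_ne_zero]
    intro h0
    have hU : (Measure.haar : Measure (PG N)) Set.univ
        ≤ (Measure.haar : Measure (PG N)) Set.univ * (2⁻¹ : ℝ≥0∞) ^ (N + 1) := by
      calc (Measure.haar : Measure (PG N)) Set.univ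
          ≤ (Measure.haar : Measure (PG N)) ({x | x ^ n = 1} ∪ {x | x ^ n ≠ 1}) := by
            refine measure_mono fun x _ => ?_
            by_cases hx : x ^ n = 1
            · exact Or.inl hx
            · exact Or.inr hx
        _ ≤ (Measure.haar : Measure (PG N)) {x | x ^ n = 1}
            + (Measure.haar : Measure (PG N)) {x | x ^ n ≠ 1} := measure_union_le _ _
        _ ≤ _ := by rw [h0, zero_add]; exact hbad
    have hpos : (Measure.haar : Measure (PG N)) Set.univ ≠ 0 :=
      (isOpen_univ.measure_pos _ Set.univ_nonempty).ne'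
    have hfin : (Measure.haar : Measure (PG N)) Set.univ ≠ ⊤ := isCompact_univ.measure_lt_top.ne
    have hlt : (2⁻¹ : ℝ≥0∞) ^ (N + 1) < 1 :=
      pow_lt_one₀ zero_le (by norm_num) (Nat.succ_ne_zero N)
    have : (Measure.haar : Measure (PG N)) Set.univ * (2⁻¹ : ℝ≥0∞) ^ (N + 1)
        < (Measure.haar : Measure (PG N)) Set.univ * 1 :=
      (ENNReal.mul_lt_mul_iff_right hpos hfin).2 hlt
    rw [mul_one] at this
    exact absurd hU (not_le.2 this)
  · intro H hH t
    classical
    have h1 : (H : Set (PG N)) ∈ nhds (1 : PG N) := hH.mem_nhds H.one_mem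
    let H' : Set (∀ k : ℕ, Gk (N + 2 + k)) := (H : Set (PG N))
    have h2 : H' ∈ nhds (1 : ∀ k : ℕ, Gk (N + 2 + k)) := h1
    rw [nhds_pi, Filter.mem_pi] at h2
    obtain ⟨I, hI, V, hV, hsubH⟩ := h2
    obtain ⟨k, hk⟩ := hI.infinite_compl.nonempty
    let h0 : ∀ k : ℕ, Gk (N + 2 + k) := Pi.mulSingle k ((t k)⁻¹ * bd (N + 2 + k))
    let h : PG N := h0
    have hk1 : h k = (t k)⁻¹ * bd (N + 2 + k) := by
      show h0 k = _
      exact Pi.mulSingle_eq_same _ _
    refine ⟨h, hsubH ?_, ?_⟩
    · intro i hi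
      have hik : i ≠ k := fun e => hk (e ▸ hi)
      have h3 : h0 i = 1 := Pi.mulSingle_eq_of_ne hik _
      show h0 i ∈ V i
      rw [h3]
      exact mem_of_mem_nhds (hV i)
    · intro hcon
      apply bd_pow (N + 2 + k) n hn
      have h3 : (t * h) k = bd (N + 2 + k) := by
        show t k * h k = _
        rw [hk1, mul_inv_cancel_left]
      have h4 : ((t * h) ^ n) k = 1 := by rw [hcon]; rfl
      have h5 : ((t * h) ^ n) k = ((t * h) k) ^ n := rfl
      rw [h5, h3] at h4
      exact h4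

end Pool.Agent.Results.MP_b7e8ae_al.NoGap
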